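import Pool.Agent.Y192.FN.TorP
import Pool.Agent.Y625.FN.Nell

/-!
Points of rational curves in projective covers lie on images of complex tori under nonconstant
holomorphic maps (job FN14; the construction is that of helper625, Pool.Agent.Y625.FN.Nell).
-/

set_option autoImplicit false

namespace Pool.Agent.Y210.FN

open MvPolynomial Filter Topology Set
open scoped PeriodPair
open Pool.Agent.Y192.FN Pool.Agent.Y625.FN
open Pool.Agent.TH182.TC (hom hom_eval hom_zero eval_smul_of_homog infinite_range)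

variable {n r : ℕ} {X : NDat n r} {m : ℕ}

/-- the square lattice -/
noncomputable def L0 : PeriodPair := ⟨1, Complex.I, by
    have := Complex.basisOneI.linearIndependent
    rwa [Complex.coe_basisOneI] at this⟩

/-- the composition of a rational curve with the Weierstrass function -/
theorem constr (hd : ∀ j, X.e j ∣ m) (hG : X.G = 1) (L : PeriodPair)
    {p : Fin (n + 1) → Polynomial ℂ} {q : Fin r → Polynomial ℂ} (hL : NLine X m p q) :
    ∃ f : ℂ → (Fin (n + 1) → ℂ) × (Fin r → ℂ), TMap X m L.ω₁ L.ω₂ f ∧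
      ∀ z, z ∉ L.lattice →
        f z = (fun i => (p i).eval (℘[L] z), fun j => (q j).eval (℘[L] z)) := by
  classical
  -- the degree
  obtain ⟨D, hD⟩ : ∃ D, D = Finset.univ.sup fun i => (p i).natDegree := ⟨_, rfl⟩
  have hpD : ∀ i, (p i).natDegree ≤ D := fun i => by
    rw [hD]
    exact Finset.le_sup (f := fun i => (p i).natDegree) (Finset.mem_univ i)
  have hlead : ∃ i, (p i).coeff D ≠ 0 := by
    rcases Nat.eq_zero_or_pos D with h0 | h0
    · obtain ⟨i, hi⟩ := hL.ne 0
      refine ⟨i, ?_⟩
      rw [h0, Polynomial.coeff_zero_eq_eval_zero]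
      exact hi
    · obtain ⟨i, -, hi⟩ := Finset.exists_mem_eq_sup Finset.univ Finset.univ_nonempty
        (fun i => (p i).natDegree)
      refine ⟨i, ?_⟩
      rw [hD, hi]
      change (p i).leadingCoeff ≠ 0
      intro h1
      rw [Polynomial.leadingCoeff_eq_zero] at h1
      rw [← hD, h1, Polynomial.natDegree_zero] at hi
      omega
  have hqD : ∀ j, (q j).natDegree ≤ D * (m * X.d j / X.e j) := by
    intro j
    have h1 : q j ^ X.e j = aeval (fun i => p i ^ m) (X.F j) := by
      refine Polynomial.funext fun z => ?_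
      have h2 := (hL.sol z).eqn j
      rw [Polynomial.eval_pow, h2]
      have h3 := MvPolynomial.comp_aeval_apply (f := fun i => p i ^ m) (Polynomial.aeval z)
        (X.F j)
      rw [Polynomial.coe_aeval_eq_eval] at h3
      rw [h3]
      congr 2
      funext i
      rw [Polynomial.eval_pow]
    have h2 := natDegree_aeval_le (m := m) hpD (X.hF j)
    rw [← h1, Polynomial.natDegree_pow, ← wt_mul hd j, ← mul_assoc, mul_comm (X.e j)] at h2
    exact Nat.le_of_mul_le_mul_right h2 (X.he j)
  let H : ℂ → ℂ → (Fin (n + 1) → ℂ) × (Fin r → ℂ) := fun s t =>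
    (fun i => hom D (p i) s t, fun j => hom (D * (m * X.d j / X.e j)) (q j) s t)
  have hHs0 : ∀ s t, s ≠ 0 → Sol X m (H s t).1 (H s t).2 := by
    intro s t hs
    have h1 := sol_scale hd hG (hL.sol (t / s)) (s ^ D)
    have e1 : (H s t).1 = fun i => s ^ D * (p i).eval (t / s) := by
      funext i
      exact hom_eval (hpD i) hs t
    have e2 : (H s t).2 = fun j => (s ^ D) ^ (m * X.d j / X.e j) * (q j).eval (t / s) := by
      funext j
      rw [← pow_mul]
      exact hom_eval (hqD j) hs t
    rw [e1, e2]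
    exact h1
  have hdense : Dense ({0}ᶜ : Set ℂ) := dense_compl_singleton 0
  have hcont : ∀ (f : MvPolynomial (Fin (n + 1)) ℂ) (t : ℂ),
      Continuous fun s => eval (fun i => (H s t).1 i ^ m) f := by
    intro f t
    refine (MvPolynomial.continuous_eval f).comp ?_
    exact continuous_pi fun i => (hom_cont D (p i) t).pow m
  have hSol : ∀ s t, Sol X m (H s t).1 (H s t).2 := by
    intro s t
    refine ⟨fun f hf => ?_, fun j => ?_, ?_⟩
    · have h1 : (fun s => eval (fun i => (H s t).1 i ^ m) f) = fun _ => 0 :=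
        Continuous.ext_on hdense (hcont f t) continuous_const
          fun s hs => (hHs0 s t hs).mem f hf
      exact congrFun h1 s
    · have h1 : (fun s => (H s t).2 j ^ X.e j) = fun s => eval (fun i => (H s t).1 i ^ m) (X.F j) :=
        Continuous.ext_on hdense ((hom_cont _ (q j) t).pow _) (hcont _ t)
          fun s hs => (hHs0 s t hs).eqn j
      exact congrFun h1 s
    · rw [hG, map_one]
      exact one_ne_zero
  have hne : ∀ s t, s ≠ 0 ∨ t ≠ 0 → (H s t).1 ≠ 0 := by
    intro s t hst h0
    by_cases hs : s = 0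
    · subst hs
      have ht : t ≠ 0 := by
        rcases hst with h | h
        · exact absurd rfl h
        · exact h
      obtain ⟨i, hi⟩ := hlead
      have h1 : hom D (p i) 0 t = 0 := congrFun h0 i
      rw [hom_zero] at h1
      exact mul_ne_zero hi (pow_ne_zero _ ht) h1
    · obtain ⟨i, hi⟩ := hL.ne (t / s)
      have h1 : hom D (p i) s t = 0 := congrFun h0 i
      rw [hom_eval (hpD i) hs] at h1
      exact mul_ne_zero (pow_ne_zero _ hs) hi h1
  have hHs : ∀ c s t, c ≠ 0 → NSame X m (H (c * s) (c * t)) (H s t) := by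
    intro c s t hc
    refine ⟨(c ^ D)⁻¹, inv_ne_zero (pow_ne_zero _ hc), fun i => ?_, fun j => ?_⟩
    · change hom D (p i) s t = (c ^ D)⁻¹ * hom D (p i) (c * s) (c * t)
      rw [hom_smul, ← mul_assoc, inv_mul_cancel₀ (pow_ne_zero _ hc), one_mul]
    · change hom (D * (m * X.d j / X.e j)) (q j) s t = (c ^ D)⁻¹ ^ (m * X.d j / X.e j) *
        hom (D * (m * X.d j / X.e j)) (q j) (c * s) (c * t)
      rw [hom_smul, pow_mul, inv_pow, ← mul_assoc,
        inv_mul_cancel₀ (pow_ne_zero _ (pow_ne_zero _ hc)), one_mul]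
  have hHan : ∀ (s t : ℂ → ℂ) (z : ℂ), AnalyticAt ℂ s z → AnalyticAt ℂ t z →
      AnalyticAt ℂ (fun w => H (s w) (t w)) z := by
    intro s t z hs ht
    refine AnalyticAt.prod ?_ ?_
    · rw [analyticAt_pi_iff]
      exact fun i => hom_an D (p i) hs ht
    · rw [analyticAt_pi_iff]
      exact fun j => hom_an _ (q j) hs ht
  have hH1 : ∀ t i, (H 1 t).1 i = (p i).eval t := by
    intro t i
    change hom D (p i) 1 t = _
    rw [hom_eval (hpD i) one_ne_zero, one_pow, one_mul, div_one]
  have hH2 : ∀ t j, (H 1 t).2 j = (q j).eval t := by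
    intro t j
    change hom _ (q j) 1 t = _
    rw [hom_eval (hqD j) one_ne_zero, one_pow, one_mul, div_one]
  let f : ℂ → (Fin (n + 1) → ℂ) × (Fin r → ℂ) := fun z =>
    if z ∈ L.lattice then H 0 1 else H 1 (℘[L] z)
  have hf0 : ∀ z, z ∈ L.lattice → f z = H 0 1 := fun z hz => if_pos hz
  have hf1 : ∀ z, z ∉ L.lattice → f z = H 1 (℘[L] z) := fun z hz => if_neg hz
  have hper : ∀ l ∈ L.lattice, ∀ z, f (z + l) = f z := by
    intro l hl z
    have h5 : z + l ∈ L.lattice ↔ z ∈ L.lattice := by
      constructor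
      · intro h
        have := L.lattice.sub_mem h hl
        rwa [add_sub_cancel_right] at this
      · intro h
        exact L.lattice.add_mem h hl
    by_cases hz : z ∈ L.lattice
    · rw [hf0 _ hz, hf0 _ (h5.2 hz)]
    · rw [hf1 _ hz, hf1 _ (fun h => hz (h5.1 h)), L.weierstrassP_add_coe z ⟨l, hl⟩]
  have hT : TMap X m L.ω₁ L.ω₂ f := by
    refine ⟨fun z => ?_, fun z => ?_, fun z => ?_, fun z => ?_, fun z => ?_⟩
    · by_cases hz : z ∈ L.lattice
      · rw [hf0 _ hz]
        exact hne 0 1 (Or.inr one_ne_zero)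
      · rw [hf1 _ hz]
        exact hne 1 _ (Or.inl one_ne_zero)
    · by_cases hz : z ∈ L.lattice
      · rw [hf0 _ hz]
        exact hSol _ _
      · rw [hf1 _ hz]
        exact hSol _ _
    · by_cases hz : z ∈ L.lattice
      · let a' : ℂ → ℂ := fun w => (w - z) ^ 2
        let c : ℂ → ℂ := fun w => (w - z) ^ 2 * ℘[L - z] w + 1 - (w - z) ^ 2 / z ^ 2
        have ha : AnalyticAt ℂ a' z := by
          change AnalyticAt ℂ (fun w => (w - z) ^ 2) z
          fun_prop
        have hc : AnalyticAt ℂ c z := by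
          have h1 : AnalyticAt ℂ ℘[L - z] z := L.analyticAt_weierstrassPExcept z
          have h2 : AnalyticAt ℂ (fun w : ℂ => (w - z) ^ 2 / z ^ 2) z := by
            have : AnalyticAt ℂ (fun w : ℂ => (w - z) ^ 2 * (z ^ 2)⁻¹) z := by fun_prop
            simpa only [div_eq_mul_inv] using this
          change AnalyticAt ℂ (fun w => (w - z) ^ 2 * ℘[L - z] w + 1 - (w - z) ^ 2 / z ^ 2) z
          fun_prop
        refine ⟨fun w => H (a' w) (c w), hHan a' c z ha hc, ?_⟩
        filter_upwards [L.compl_lattice_sdiff_singleton_mem_nhds z] with w hw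
        by_cases hwz : w = z
        · subst hwz
          have h1 : a' w = 0 := by simp [a']
          have h2 : c w = 1 := by simp [c]
          rw [h1, h2, hf0 _ hz]
          exact nsame_refl _
        · have hwL : w ∉ L.lattice := fun h => hw ⟨h, hwz⟩
          have h1 : a' w ≠ 0 := pow_ne_zero 2 (sub_ne_zero.mpr hwz)
          have h2 : c w = a' w * ℘[L] w := by
            have := L.ite_eq_one_sub_sq_mul_weierstrassP z hz w
            rw [if_neg hwz] at this
            exact this.symm
          rw [hf1 _ hwL, h2]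
          have h3 := hHs (a' w) 1 (℘[L] w) h1
          rwa [mul_one] at h3
      · refine ⟨fun w => H 1 (℘[L] w), hHan (fun _ => 1) (fun w => ℘[L] w) z
          analyticAt_const (L.analyticOnNhd_weierstrassP z hz), ?_⟩
        have hopen : ((L.lattice : Set ℂ)ᶜ) ∈ 𝓝 z := L.isClosed_lattice.isOpen_compl.mem_nhds hz
        filter_upwards [hopen] with w hw
        rw [hf1 _ hw]
        exact nsame_refl _
    · rw [hper _ L.ω₁_mem_lattice]
      exact nsame_refl _
    · rw [hper _ L.ω₂_mem_lattice]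
      exact nsame_refl _
  refine ⟨f, hT, fun z hz => ?_⟩
  rw [hf1 z hz]
  refine Prod.ext ?_ ?_
  · funext i
    exact hH1 _ i
  · funext j
    exact hH2 _ j

/-- such a map is not constant -/
theorem not_const (L : PeriodPair)
    {p : Fin (n + 1) → Polynomial ℂ} {q : Fin r → Polynomial ℂ} (hL : NLine X m p q)
    {f : ℂ → (Fin (n + 1) → ℂ) × (Fin r → ℂ)} (hf : ∀ z, z ∉ L.lattice →
        f z = (fun i => (p i).eval (℘[L] z), fun j => (q j).eval (℘[L] z))) :
    ¬ ∀ z w, NSame X m (f z) (f w) := by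
  intro hconst
  have hinf := infinite_range L
  -- the coordinates are proportional on the range
  have hR : ∀ x ∈ (℘[L] '' (L.lattice : Set ℂ)ᶜ), ∀ y ∈ (℘[L] '' (L.lattice : Set ℂ)ᶜ), ∀ i j,
      (p i).eval x * (p j).eval y = (p j).eval x * (p i).eval y := by
    rintro _ ⟨z, hz, rfl⟩ _ ⟨w, hw, rfl⟩ i j
    obtain ⟨t, -, ht, -⟩ := hconst z w
    have h1 := ht i
    have h2 := ht j
    rw [hf _ hz, hf _ hw] at h1 h2
    simp only at h1 h2
    rw [h1, h2]
    ring
  have hR2 : ∀ x, ∀ y ∈ (℘[L] '' (L.lattice : Set ℂ)ᶜ), ∀ i j,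
      (p i).eval x * (p j).eval y = (p j).eval x * (p i).eval y := by
    intro x y hy i j
    have h1 : p i * Polynomial.C ((p j).eval y) = p j * Polynomial.C ((p i).eval y) := by
      refine Polynomial.eq_of_infinite_eval_eq _ _ (hinf.mono fun x hx => ?_)
      change Polynomial.eval x _ = Polynomial.eval x _
      rw [Polynomial.eval_mul, Polynomial.eval_mul, Polynomial.eval_C, Polynomial.eval_C]
      exact hR x hx y hy i j
    have h2 := congrArg (Polynomial.eval x) h1
    rwa [Polynomial.eval_mul, Polynomial.eval_mul, Polynomial.eval_C, Polynomial.eval_C] at h2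
  obtain ⟨x, y, i, j, hxy⟩ := hL.nonconst
  apply hxy
  have h1 : Polynomial.C ((p i).eval x) * p j = Polynomial.C ((p j).eval x) * p i := by
    refine Polynomial.eq_of_infinite_eval_eq _ _ (hinf.mono fun y hy => ?_)
    change Polynomial.eval y _ = Polynomial.eval y _
    rw [Polynomial.eval_mul, Polynomial.eval_mul, Polynomial.eval_C, Polynomial.eval_C]
    exact hR2 x y hy i j
  have h2 := congrArg (Polynomial.eval y) h1
  rwa [Polynomial.eval_mul, Polynomial.eval_mul, Polynomial.eval_C, Polynomial.eval_C] at h2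

/-- **Points of rational curves lie on images of tori.** -/
theorem ntor_aux (hd : ∀ j, X.e j ∣ m) (hG : X.G = 1) (L : PeriodPair)
    {p : Fin (n + 1) → Polynomial ℂ} {q : Fin r → Polynomial ℂ} (hL : NLine X m p q) (y : ℂ) :
    ∃ (f : ℂ → (Fin (n + 1) → ℂ) × (Fin r → ℂ)) (z1 : ℂ), TMap X m L.ω₁ L.ω₂ f ∧
      f z1 = (fun i => (p i).eval y, fun j => (q j).eval y) ∧
      ¬ ∀ z w, NSame X m (f z) (f w) := by
  obtain ⟨_, ⟨z1, hz1, rfl⟩⟩ := (infinite_range L).nonempty
  obtain ⟨τ, hτ⟩ : ∃ τ, τ = y - ℘[L] z1 := ⟨_, rfl⟩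
  have he : ∀ (P : Polynomial ℂ) (z : ℂ),
      (P.comp (Polynomial.X + Polynomial.C τ)).eval z = P.eval (z + τ) := by
    intro P z
    rw [Polynomial.eval_comp, Polynomial.eval_add, Polynomial.eval_X, Polynomial.eval_C]
  have hL' : NLine X m (fun i => (p i).comp (Polynomial.X + Polynomial.C τ))
      (fun j => (q j).comp (Polynomial.X + Polynomial.C τ)) := by
    refine ⟨fun z => ?_, fun z => ?_, ?_⟩
    · obtain ⟨i, hi⟩ := hL.ne (z + τ)
      exact ⟨i, by rw [he]; exact hi⟩
    · have := hL.sol (z + τ)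
      simp only [he]
      exact this
    · obtain ⟨x, y, i, j, h⟩ := hL.nonconst
      refine ⟨x - τ, y - τ, i, j, ?_⟩
      simp only [he, sub_add_cancel]
      exact h
  obtain ⟨f, hT, hf⟩ := constr hd hG L hL'
  refine ⟨f, z1, hT, ?_, not_const L hL' hf⟩
  rw [hf z1 hz1]
  simp only [he]
  have e : ℘[L] z1 + τ = y := by rw [hτ]; ring
  rw [e]

theorem t_ntor : St_ntor := by
  intro n r X m _ hd hG p s hL y
  obtain ⟨f, z1, hT, h1, h2⟩ := ntor_aux hd hG L0 hL y
  push Not at h2
  exact ⟨L0.ω₁, L0.ω₂, f, L0.indep, hT, h2, z1, by rw [h1]; exact nsame_refl _⟩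

end Pool.Agent.Y210.FN
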